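import Pool.Agent.H97R2.LPB.Props
import Pool.Agent.H102R2.Z5.Brick

/-! Task PAIR: mutual energy of two different bricks. -/

open Polynomial Filter Topology MeasureTheory Pool.Agent.H337R2 Pool.Agent.LP

namespace Pool.Agent.LPB

namespace H43Pair

/-- inner sums -/
theorem inner0 (z d : ℝ) (hz : 1 / 4 ≤ z) (hd : 1 / 2 ≤ d) (N : ℕ) :
    (Pool.Agent.H102R2.Z5.Psi (z + d * (((N + 1 : ℕ) : ℝ) - 1 / 2)) -
      Pool.Agent.H102R2.Z5.Psi (z + d / 2)) / d - 1 ≤
      ∑ j ∈ Finset.range (N + 1), Real.log (z + d * ((j : ℝ) + 1 / 2)) := by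
  induction N with
  | zero =>
    simp only [zero_add, Finset.sum_range_one, Nat.cast_zero, Nat.cast_one]
    have e1 : z + d * (1 - 1 / 2 : ℝ) = z + d / 2 := by ring
    have e2 : z + d * (1 / 2) = z + d / 2 := by ring
    rw [e1, e2, sub_self, zero_div, zero_sub]
    have h1 : Real.log (1 / 2) ≤ Real.log (z + d / 2) :=
      Real.log_le_log (by norm_num) (by linarith)
    have h2 : Real.log (1 / 2) = -Real.log 2 := by rw [one_div, Real.log_inv]
    have h3 := Real.log_two_lt_d9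
    linarith
  | succ N ih =>
    rw [Finset.sum_range_succ]
    have hd0 : 0 < d := by linarith
    have hN : (0 : ℝ) ≤ N := Nat.cast_nonneg N
    have hx : 0 < z + d * (((N + 1 : ℕ) : ℝ) - 1 / 2) := by
      push_cast
      have : 0 ≤ d * ((N : ℝ) + 1 - 1 / 2) := mul_nonneg hd0.le (by linarith)
      linarith
    have hy : z + d * (((N + 1 + 1 : ℕ) : ℝ) - 1 / 2) = z + d * (((N + 1 : ℕ) : ℝ) - 1 / 2) + d := by
      push_cast; ring
    have h1 := Pool.Agent.H102R2.Z5.Psi_sub_le (x := z + d * (((N + 1 : ℕ) : ℝ) - 1 / 2))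
      (y := z + d * (((N + 1 : ℕ) : ℝ) - 1 / 2) + d) hx (by linarith)
    have e3 : z + d * (((N + 1 : ℕ) : ℝ) - 1 / 2) + d = z + d * (((N + 1 : ℕ) : ℝ) + 1 / 2) := by ring
    rw [add_sub_cancel_left] at h1
    have h2 : (Pool.Agent.H102R2.Z5.Psi (z + d * (((N + 1 : ℕ) : ℝ) - 1 / 2) + d) -
        Pool.Agent.H102R2.Z5.Psi (z + d * (((N + 1 : ℕ) : ℝ) - 1 / 2))) / d ≤
        Real.log (z + d * (((N + 1 : ℕ) : ℝ) + 1 / 2)) := by
      rw [div_le_iff₀ hd0, ← e3]; linarith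
    rw [hy]
    have e4 : (Pool.Agent.H102R2.Z5.Psi (z + d * (((N + 1 : ℕ) : ℝ) - 1 / 2) + d) -
        Pool.Agent.H102R2.Z5.Psi (z + d / 2)) / d - 1 =
        ((Pool.Agent.H102R2.Z5.Psi (z + d * (((N + 1 : ℕ) : ℝ) - 1 / 2)) -
          Pool.Agent.H102R2.Z5.Psi (z + d / 2)) / d - 1) +
        (Pool.Agent.H102R2.Z5.Psi (z + d * (((N + 1 : ℕ) : ℝ) - 1 / 2) + d) -
        Pool.Agent.H102R2.Z5.Psi (z + d * (((N + 1 : ℕ) : ℝ) - 1 / 2))) / d := by
      field_simp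
      ring
    rw [e4]
    linarith

theorem inner1 (z d W : ℝ) (hz : 1 / 4 ≤ z) (hd : 1 / 2 ≤ d) (n : ℕ) (hn : 1 ≤ n)
    (hW : z + d * n ≤ W) :
    (Pool.Agent.H102R2.Z5.Psi (z + d * n) - Pool.Agent.H102R2.Z5.Psi z) / d - Real.log W - 1 ≤
      ∑ j ∈ Finset.range n, Real.log (z + d * ((j : ℝ) + 1 / 2)) := by
  obtain ⟨N, rfl⟩ : ∃ N, n = N + 1 := ⟨n - 1, by omega⟩
  have h0 := inner0 z d hz hd N
  have hd0 : 0 < d := by linarith
  have hN : (0 : ℝ) ≤ N := Nat.cast_nonneg N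
  have hx : 0 < z + d * (((N + 1 : ℕ) : ℝ) - 1 / 2) := by
    push_cast
    have : 0 ≤ d * ((N : ℝ) + 1 - 1 / 2) := mul_nonneg hd0.le (by linarith)
    linarith
  have hxy : z + d * ((N + 1 : ℕ) : ℝ) = z + d * (((N + 1 : ℕ) : ℝ) - 1 / 2) + d / 2 := by ring
  have hd2 : z + d / 2 ≤ z + d * ((N + 1 : ℕ) : ℝ) := by
    push_cast
    nlinarith
  have h1 := Pool.Agent.H102R2.Z5.Psi_sub_le (x := z + d * (((N + 1 : ℕ) : ℝ) - 1 / 2))
      (y := z + d * ((N + 1 : ℕ) : ℝ)) hx (by rw [hxy]; linarith)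
  have h2 := Pool.Agent.H102R2.Z5.Psi_sub_le (x := z) (y := z + d / 2) (by linarith) (by linarith)
  have h3 : Real.log (z + d * ((N + 1 : ℕ) : ℝ)) ≤ Real.log W :=
    Real.log_le_log (by rw [hxy]; linarith) hW
  have h4 : Real.log (z + d / 2) ≤ Real.log W :=
    Real.log_le_log (by linarith) (hd2.trans hW)
  have e1 : z + d * ((N + 1 : ℕ) : ℝ) - (z + d * (((N + 1 : ℕ) : ℝ) - 1 / 2)) = d / 2 := by ring
  have e2 : z + d / 2 - z = d / 2 := by ring
  rw [e1] at h1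
  rw [e2] at h2
  have h5 : d / 2 * Real.log (z + d * ((N + 1 : ℕ) : ℝ)) ≤ d / 2 * Real.log W :=
    mul_le_mul_of_nonneg_left h3 (by linarith)
  have h6 : d / 2 * Real.log (z + d / 2) ≤ d / 2 * Real.log W :=
    mul_le_mul_of_nonneg_left h4 (by linarith)
  have h7 : (Pool.Agent.H102R2.Z5.Psi (z + d * ((N + 1 : ℕ) : ℝ)) - Pool.Agent.H102R2.Z5.Psi z) / d -
      Real.log W ≤ (Pool.Agent.H102R2.Z5.Psi (z + d * (((N + 1 : ℕ) : ℝ) - 1 / 2)) -
      Pool.Agent.H102R2.Z5.Psi (z + d / 2)) / d := by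
    rw [sub_le_iff_le_add, div_add' _ _ _ hd0.ne', div_le_div_iff_of_pos_right hd0]
    linarith
  linarith

theorem G_scale {r : ℝ} (hr : 0 < r) (z : ℝ) :
    Pool.Agent.H102R2.Z5.G2 (r * z) = r ^ 2 * GG z + r ^ 2 * z ^ 2 / 2 * Real.log r := by
  unfold GG Pool.Agent.H102R2.Z5.G2
  rcases eq_or_ne z 0 with h | h
  · subst h; simp
  · rw [Real.log_mul hr.ne' h]; ring

/-- shift by half a step -/
theorem shift (x c W : ℝ) (hc : 1 / 2 ≤ c) (hc3 : c ≤ 3) (hW1 : 1 ≤ W) (hx : |x| + c / 2 ≤ W) :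
    |Pool.Agent.H102R2.Z5.G2 (x + c / 2) - Pool.Agent.H102R2.Z5.G2 x| ≤
      3 / 2 * (3 / 2 * Real.log W + 2) + 3 / 2 * (|x| * Real.log W + 2) := by
  have h1 := Pool.Agent.H102R2.Z5.G2_step x (c / 2) W (by linarith) hx hW1
  have h2 := Pool.Agent.H102R2.Z5.abs_Psi_sub_le (x := 0) (y := x) (W := W) hW1
    (by rw [abs_zero]; linarith) (by linarith)
  rw [Pool.Agent.H102R2.Z5.Psi_zero, sub_zero] at h2
  have hl : 0 ≤ Real.log W := Real.log_nonneg hW1
  have hx0 := abs_nonneg x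
  have h2' : |Pool.Agent.H102R2.Z5.Psi x| ≤ |x| * Real.log W + 2 := by
    rw [sub_zero] at h2
    exact h2
  have h3 : |c / 2 * Pool.Agent.H102R2.Z5.Psi x| ≤ 3 / 2 * (|x| * Real.log W + 2) := by
    rw [abs_mul, abs_of_pos (show (0 : ℝ) < c / 2 by linarith)]
    exact mul_le_mul (by linarith) h2' (abs_nonneg _) (by norm_num)
  have h4 : c / 2 * (c / 2 * Real.log W + 2) ≤ 3 / 2 * (3 / 2 * Real.log W + 2) := by
    apply mul_le_mul (by linarith) _ (by positivity) (by norm_num)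
    have : c / 2 * Real.log W ≤ 3 / 2 * Real.log W := mul_le_mul_of_nonneg_right (by linarith) hl
    linarith
  rw [abs_le] at h1 h3 ⊢
  constructor
  · linarith [h1.1, h3.1, h1.2, h3.2]
  · linarith [h1.1, h3.1, h1.2, h3.2]

theorem outer1 (n : ℕ) (hn : 2 ≤ n) (D c : ℝ) (hc : 1 / 2 ≤ c) (hc3 : c ≤ 3) (hD : |D| ≤ 9) :
    |∑ i ∈ Finset.range n, Pool.Agent.H102R2.Z5.Psi (-(n * D + c * ((i : ℝ) + 1 / 2))) +
      ((n : ℝ) ^ 2 * (GG (D + c) - GG D) +
        (n : ℝ) ^ 2 * Real.log n / 2 * ((D + c) ^ 2 - D ^ 2)) / c| ≤ 500 * n * Real.log n := by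
  have hn2 : (2 : ℝ) ≤ n := by exact_mod_cast hn
  have hn0 : (0 : ℝ) < n := by linarith
  have hl2 : (0.69 : ℝ) < Real.log 2 := by
    have := Real.log_two_gt_d9
    linarith
  have hL2 : Real.log 2 ≤ Real.log n := Real.log_le_log (by norm_num) hn2
  set L := Real.log n with hL
  have hL0 : 0.69 < L := by linarith
  have hc0 : 0 < c := by linarith
  have hWL : Real.log (16 * n) ≤ 5 * L := by
    rw [show (16 : ℝ) = 2 ^ 4 by norm_num, Real.log_mul (by norm_num) hn0.ne', Real.log_pow, ← hL]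
    push_cast
    linarith
  have hnL : L * 2 ≤ n * L := by nlinarith
  have hDn : |(n : ℝ) * D| ≤ 9 * n := by
    rw [abs_mul, abs_of_pos hn0]; nlinarith
  have hDcn : |(n : ℝ) * (D + c)| ≤ 12 * n := by
    rw [abs_mul, abs_of_pos hn0]
    have : |D + c| ≤ 12 := by
      refine (abs_add_le _ _).trans ?_
      rw [abs_of_pos hc0]; linarith
    nlinarith
  have e0 : ∀ i : ℕ, Pool.Agent.H102R2.Z5.Psi (-(n * D + c * ((i : ℝ) + 1 / 2))) =
      -Pool.Agent.H102R2.Z5.Psi ((n * D + c / 2) + c * i) := by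
    intro i
    rw [Pool.Agent.H102R2.Z5.Psi_neg]
    congr 2
    ring
  simp only [e0, Finset.sum_neg_distrib]
  have h1 := Pool.Agent.H102R2.Z5.outer (n * D + c / 2) c hc0 n (16 * n) (by
    have := abs_add_le ((n : ℝ) * D) (c / 2)
    rw [abs_of_pos (show (0 : ℝ) < c / 2 by linarith)] at this
    nlinarith) (by linarith)
  have e1 : (n : ℝ) * D + c / 2 + c * n = n * (D + c) + c / 2 := by ring
  rw [e1] at h1
  have h2 := shift (n * D) c (16 * n) hc hc3 (by linarith) (by linarith)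
  have h3 := shift (n * (D + c)) c (16 * n) hc hc3 (by linarith) (by linarith)
  have hb1 : (n : ℝ) * (c * Real.log (16 * n) + 2) ≤ 18 * n * L := by
    have : c * Real.log (16 * n) ≤ 3 * (5 * L) :=
      mul_le_mul hc3 hWL (Real.log_nonneg (by linarith)) (by norm_num)
    nlinarith
  have hlog0 : 0 ≤ Real.log (16 * n) := Real.log_nonneg (by linarith)
  have hb2 : 3 / 2 * (3 / 2 * Real.log (16 * n) + 2) + 3 / 2 * (|(n : ℝ) * D| * Real.log (16 * n) + 2) ≤
      110 * n * L := by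
    have : |(n : ℝ) * D| * Real.log (16 * n) ≤ (9 * n) * (5 * L) :=
      mul_le_mul hDn hWL hlog0 (by positivity)
    nlinarith
  have hb3 : 3 / 2 * (3 / 2 * Real.log (16 * n) + 2) +
      3 / 2 * (|(n : ℝ) * (D + c)| * Real.log (16 * n) + 2) ≤ 110 * n * L := by
    have : |(n : ℝ) * (D + c)| * Real.log (16 * n) ≤ (12 * n) * (5 * L) :=
      mul_le_mul hDcn hWL hlog0 (by positivity)
    nlinarith
  have s1 := G_scale hn0 D
  have s2 := G_scale hn0 (D + c)
  rw [← hL] at s1 s2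
  set P := ∑ i ∈ Finset.range n, Pool.Agent.H102R2.Z5.Psi (n * D + c / 2 + c * (i : ℝ)) with hP
  set A1 := Pool.Agent.H102R2.Z5.G2 (n * D) with hA1
  set A2 := Pool.Agent.H102R2.Z5.G2 (n * (D + c)) with hA2
  set B1 := Pool.Agent.H102R2.Z5.G2 (n * D + c / 2) with hB1
  set B2 := Pool.Agent.H102R2.Z5.G2 (n * (D + c) + c / 2) with hB2
  have e2 : (n : ℝ) ^ 2 * (GG (D + c) - GG D) + (n : ℝ) ^ 2 * L / 2 * ((D + c) ^ 2 - D ^ 2) =
      A2 - A1 := by
    rw [s1, s2]; ring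
  rw [e2]
  have h4 : |(B2 - B1) / c - (A2 - A1) / c| ≤ 440 * n * L := by
    have e3 : (B2 - B1) / c - (A2 - A1) / c = ((B2 - A2) - (B1 - A1)) / c := by ring
    rw [e3, abs_div, abs_of_pos hc0, div_le_iff₀ hc0]
    have h5 : |B2 - A2 - (B1 - A1)| ≤ 220 * n * L := by
      refine (abs_sub _ _).trans ?_
      linarith
    have : 0 ≤ n * L := by positivity
    nlinarith
  have h6 : |P - (B2 - B1) / c| ≤ 18 * n * L := h1.trans hb1
  rw [abs_le] at h4 h6 ⊢
  constructor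
  · linarith [h4.1, h6.2, h4.2, h6.1]
  · linarith [h4.1, h6.2, h4.2, h6.1]

/-- the case `a + c ≤ b` -/
theorem caseA (n : ℕ) (hn : 2 ≤ n) (a c b d : ℝ) (hc : 1 / 2 ≤ c) (hc3 : c ≤ 3) (hd : 1 / 2 ≤ d)
    (hd3 : d ≤ 3) (ha : |a| ≤ 3) (hb : |b| ≤ 3) (hab : a + c ≤ b) :
    en a (a + c) b (b + d) * (n : ℝ) ^ 2 + (n : ℝ) ^ 2 * Real.log n - 2010 * n * Real.log n ≤
      ∑ i ∈ Finset.range n, ∑ j ∈ Finset.range n,
        Real.log |(a * n + c * ((i : ℝ) + 1 / 2)) - (b * n + d * ((j : ℝ) + 1 / 2))| := by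
  have hn2 : (2 : ℝ) ≤ n := by exact_mod_cast hn
  have hn0 : (0 : ℝ) < n := by linarith
  have hl2 : (0.69 : ℝ) < Real.log 2 := by
    have := Real.log_two_gt_d9
    linarith
  have hL2 : Real.log 2 ≤ Real.log n := Real.log_le_log (by norm_num) hn2
  have hL0 : 0.69 < Real.log n := by linarith
  have hc0 : 0 < c := by linarith
  have hd0 : 0 < d := by linarith
  have ha' := abs_le.1 ha
  have hb' := abs_le.1 hb
  have hWL : Real.log (16 * n) ≤ 5 * Real.log n := by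
    rw [show (16 : ℝ) = 2 ^ 4 by norm_num, Real.log_mul (by norm_num) hn0.ne', Real.log_pow]
    push_cast
    linarith
  have hin : ∀ i ∈ Finset.range n,
      (Pool.Agent.H102R2.Z5.Psi (-(n * (a - (b + d)) + c * ((i : ℝ) + 1 / 2))) -
        Pool.Agent.H102R2.Z5.Psi (-(n * (a - b) + c * ((i : ℝ) + 1 / 2)))) / d -
        (5 * Real.log n) - 1 ≤ ∑ j ∈ Finset.range n,
        Real.log |(a * n + c * ((i : ℝ) + 1 / 2)) - (b * n + d * ((j : ℝ) + 1 / 2))| := by
    intro i hi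
    have hi1 : (i : ℝ) + 1 ≤ n := by exact_mod_cast Finset.mem_range.1 hi
    have hi0 : (0 : ℝ) ≤ i := Nat.cast_nonneg i
    set z : ℝ := -(n * (a - b) + c * ((i : ℝ) + 1 / 2)) with hz
    have hz1 : 1 / 4 ≤ z := by
      rw [hz]
      have h1 : c * ((i : ℝ) + 1 / 2) ≤ c * (n - 1 / 2) := mul_le_mul_of_nonneg_left (by linarith) hc0.le
      have h2 : (n : ℝ) * (a - b) ≤ n * (-c) := mul_le_mul_of_nonneg_left (by linarith) hn0.le
      nlinarith
    have hz2 : z + d * n ≤ 16 * n := by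
      rw [hz]
      have h1 : 0 ≤ c * ((i : ℝ) + 1 / 2) := by positivity
      have h2 : (n : ℝ) * (b - a) ≤ n * 6 := mul_le_mul_of_nonneg_left (by linarith [ha'.1, hb'.2]) hn0.le
      have h3 : d * n ≤ 3 * n := mul_le_mul_of_nonneg_right hd3 hn0.le
      nlinarith
    have h1 := inner1 z d (16 * n) hz1 hd n (by omega) hz2
    have e1 : -(n * (a - (b + d)) + c * ((i : ℝ) + 1 / 2)) = z + d * n := by rw [hz]; ring
    rw [e1]
    have e2 : ∑ j ∈ Finset.range n,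
        Real.log |(a * n + c * ((i : ℝ) + 1 / 2)) - (b * n + d * ((j : ℝ) + 1 / 2))| =
        ∑ j ∈ Finset.range n, Real.log (z + d * ((j : ℝ) + 1 / 2)) := by
      refine Finset.sum_congr rfl fun j _ => ?_
      rw [Real.log_abs, ← Real.log_neg_eq_log]
      congr 1
      rw [hz]; ring
    rw [e2]
    linarith
  refine le_trans ?_ (Finset.sum_le_sum hin)
  have o1 := outer1 n hn (a - (b + d)) c hc hc3 (by rw [abs_le]; constructor <;> linarith [ha'.1, ha'.2, hb'.1, hb'.2])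
  have o2 := outer1 n hn (a - b) c hc hc3 (by rw [abs_le]; constructor <;> linarith [ha'.1, ha'.2, hb'.1, hb'.2])
  rw [Finset.sum_sub_distrib, Finset.sum_sub_distrib, Finset.sum_const, Finset.sum_const,
    Finset.card_range, ← Finset.sum_div, Finset.sum_sub_distrib, nsmul_eq_mul, nsmul_eq_mul]
  set S1 := ∑ i ∈ Finset.range n, Pool.Agent.H102R2.Z5.Psi (-(n * (a - (b + d)) + c * ((i : ℝ) + 1 / 2))) with hS1
  set S2 := ∑ i ∈ Finset.range n, Pool.Agent.H102R2.Z5.Psi (-(n * (a - b) + c * ((i : ℝ) + 1 / 2))) with hS2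
  set L := Real.log n with hL
  have e3 : en a (a + c) b (b + d) * (n : ℝ) ^ 2 + (n : ℝ) ^ 2 * L =
      (-(((n : ℝ) ^ 2 * (GG (a - (b + d) + c) - GG (a - (b + d))) +
        (n : ℝ) ^ 2 * L / 2 * ((a - (b + d) + c) ^ 2 - (a - (b + d)) ^ 2)) / c) +
      ((n : ℝ) ^ 2 * (GG (a - b + c) - GG (a - b)) +
        (n : ℝ) ^ 2 * L / 2 * ((a - b + c) ^ 2 - (a - b) ^ 2)) / c) / d := by
    unfold en
    rw [show a + c - b = a - b + c by ring, show a + c - (b + d) = a - (b + d) + c by ring,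
      show a + c - a = c by ring, show b + d - b = d by ring]
    field_simp
    ring
  rw [e3]
  set U1 := ((n : ℝ) ^ 2 * (GG (a - (b + d) + c) - GG (a - (b + d))) +
        (n : ℝ) ^ 2 * L / 2 * ((a - (b + d) + c) ^ 2 - (a - (b + d)) ^ 2)) / c with hU1
  set U2 := ((n : ℝ) ^ 2 * (GG (a - b + c) - GG (a - b)) +
        (n : ℝ) ^ 2 * L / 2 * ((a - b + c) ^ 2 - (a - b) ^ 2)) / c with hU2
  have h8 : (-U1 + U2) / d ≤ (S1 - S2) / d + 2000 * n * L := by
    rw [div_add' _ _ _ hd0.ne', div_le_div_iff_of_pos_right hd0]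
    have h9 := (abs_le.1 o1).1
    have h10 := (abs_le.1 o2).2
    have h11 : 0 ≤ (n : ℝ) * L := by positivity
    have h12 : 1000 * (n * L) ≤ 2000 * n * L * d := by nlinarith
    nlinarith
  have h13 : (n : ℝ) * (5 * L) + n * 1 ≤ 10 * n * L := by nlinarith
  linarith

theorem en_symm (a c b d : ℝ) : en a (a + c) b (b + d) = en b (b + d) a (a + c) := by
  unfold en
  have hG : ∀ z : ℝ, GG (-z) = GG z := by
    intro z; unfold GG; rw [Real.log_neg_eq_log]; ring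
  rw [← hG (b + d - a), ← hG (b + d - (a + c)), ← hG (b - a), ← hG (b - (a + c))]
  rw [show -(b + d - a) = a - (b + d) by ring, show -(b + d - (a + c)) = a + c - (b + d) by ring,
    show -(b - a) = a - b by ring, show -(b - (a + c)) = a + c - b by ring]
  rw [mul_comm (b + d - b) (a + c - a)]
  congr 1
  ring

end H43Pair

open H43Pair

theorem G6_pair : S_pair := by
  refine ⟨2010, by norm_num, ?_⟩
  intro n hn a c b d hc hc3 hd hd3 ha hb hor
  rcases hor with h | h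
  · have h1 := caseA n hn b d a c hd hd3 hc hc3 hb ha h
    rw [en_symm]
    refine h1.trans (le_of_eq ?_)
    rw [Finset.sum_comm]
    refine Finset.sum_congr rfl fun i _ => Finset.sum_congr rfl fun j _ => ?_
    rw [abs_sub_comm]
  · exact caseA n hn a c b d hc hc3 hd hd3 ha hb h

end Pool.Agent.LPB
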